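import Pool.Agent.Work.MP_7ca543_pr.Averaged

/-!
# MP_7ca543_pr, Q1: ballisticity of excited random walks with non-negative cookie drifts

Let `P` be the law of a cookie environment `ω = (ω z i)` with values in `[0,1]`, satisfying (IID),
(POS) and (WEL), and let `Q ω = P_{0,ω}` be the quenched laws of the excited random walk started at
`0` (a measurable family; such a family exists by `exists_quenched_kernel`). The averaged law is
`P_0 = P.bind Q`, i.e. `P_0(A) = ∫ Q ω A dP(ω)`. Then there is a deterministic `v` with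
`x_n / n → v` `P_0`-almost surely, `v = 0` if `δ ≤ 2`, and `v > 0` if `δ > 2` (including `δ = ∞`).
-/

namespace Pool.Agent.Results.MP_7ca543_pr.Ballisticity

open MeasureTheory ProbabilityTheory Filter Topology
open Pool.Agent.Work.MP_7ca543_pr

theorem result (P : Measure (ℤ → ℕ → ℝ)) [IsProbabilityMeasure P]
    (h01 : ∀ᵐ ω ∂P, ∀ z i, ω z i ∈ Set.Icc (0 : ℝ) 1)
    (hIID : IID P) (hPOS : POS P) (hWEL : WEL P)
    (Q : Kernel (ℤ → ℕ → ℝ) (ℕ → ℤ)) (hQ : ∀ᵐ ω ∂P, IsQuenchedLaw ω (Q ω)) :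
    ∃ v : ℝ,
      (∀ᵐ x ∂(P.bind Q), Tendsto (fun n : ℕ => (x n : ℝ) / n) atTop (𝓝 v)) ∧
      (drift P ≤ 2 → v = 0) ∧ (2 < drift P → 0 < v) := by
  refine main_averaged P hIID.1 hIID.2 ?_ hWEL.2 Q hQ
  filter_upwards [h01, hPOS] with ω h1 h2 z i
  exact ⟨h2 z i, (h1 z i).2⟩

end Pool.Agent.Results.MP_7ca543_pr.Ballisticity
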